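import Pool.Agent.H929.BG.Stm
import Pool.Graph.R_pool_sql_team_seeded_35f281b4.K7.H43.PT.Fin
import Pool.Graph.R_pool_sql_team_seeded_c8625f6e.Results.MP_b56c98_ag.ConstantWindow

/-!
# BG: clusters of `t ^ N` points with a bounded error, independence (task CI; helper253)
-/

set_option autoImplicit false

namespace Pool.Agent.H253.BG

open Finset MvPolynomial
open scoped LinearAlgebra.Projectivization
open Pool.Agent.TH3.IR Pool.Agent.Y55.Col Pool.Agent.H929.BW Pool.Agent.H929.BG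
open Pool.Agent.H350R3.MG (primeIdeal primeIdeal_mk)

/-- the two descriptions of the forms with fat points -/
lemma forms_eq' {r k d : ℕ} (m : Fin k → ℕ) (v : Fin k → Fin (r + 1) → ℂ) (hv : ∀ i, v i ≠ 0) :
    (homogeneousSubmodule (Fin (r + 1)) ℂ d ⊓ Submodule.restrictScalars ℂ
      (⨅ i, primeIdeal (Projectivization.mk ℂ (v i) (hv i)) ^ m i :
        Ideal (MvPolynomial (Fin (r + 1)) ℂ)) :
      Submodule ℂ (MvPolynomial (Fin (r + 1)) ℂ)) =
      Pool.Agent.H938R2.forms (r + 1) d m v := by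
  ext F
  rw [Submodule.mem_inf, Submodule.restrictScalars_mem, Submodule.mem_iInf,
    Pool.Agent.H938R2.mem_forms, mem_homogeneousSubmodule]
  have key : F.IsHomogeneous d → ∀ i,
      (F ∈ primeIdeal (Projectivization.mk ℂ (v i) (hv i)) ^ m i ↔
        Pool.Agent.H938R2.VanishesToOrder (m i) (v i) F) := by
    intro hF i
    rw [primeIdeal_mk]
    exact Pool.Agent.TH176.FB.mem_pow_iff_vanishes (hv i) ((mem_homogeneousSubmodule _ _).2 hF)
  constructor
  · rintro ⟨h1, h2⟩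
    exact ⟨h1, fun i => (key h1 i).1 (h2 i)⟩
  · rintro ⟨h1, h2⟩
    exact ⟨h1, fun i => (key h1 i).2 (h2 i)⟩

lemma map_const_rep (r m : ℕ) :
    ((Finset.univ : Finset (Fin r)).val.map fun _ => m) = Multiset.replicate r m := by
  rw [Multiset.map_const', Finset.card_val, Finset.card_univ, Fintype.card_fin]

/-- from the general Hilbert function to independence -/
lemma ind_of_gv {n r m d : ℕ}
    (h : GV (n + 1) r m d (r * (n + 1 + m - 1).choose (n + 1))) :
    Ind n (d + 1) (Multiset.replicate r m) := by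
  obtain ⟨U, _, ⟨P, hPU⟩, hU⟩ := h
  have h1 := hU P hPU
  have hPe : P = fun i => Projectivization.mk ℂ (P i).rep (P i).rep_nonzero :=
    funext fun i => (P i).mk_rep.symm
  have hN : Module.finrank ℂ (homogeneousSubmodule (Fin (n + 1 + 1)) ℂ d) =
      (d + (n + 1)).choose (n + 1) := by
    rw [H350MG.finrank_Rj, Fintype.card_fin, show n + 1 + 1 + d - 1 = d + (n + 1) by omega,
      Nat.choose_symm_add]
  have hcond : (n + 1 + m - 1).choose (n + 1) = (m + n).choose (n + 1) := by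
    rw [show n + 1 + m - 1 = m + n by omega]
  have h2 : (Module.finrank ℂ (homogeneousSubmodule (Fin (n + 1 + 1)) ℂ d) : ℤ) -
      Module.finrank ℂ (homogeneousSubmodule (Fin (n + 1 + 1)) ℂ d ⊓ Submodule.restrictScalars ℂ
        (⨅ i : Fin r, primeIdeal (P i) ^ m : Ideal (MvPolynomial (Fin (n + 1 + 1)) ℂ)) :
        Submodule ℂ (MvPolynomial (Fin (n + 1 + 1)) ℂ)) =
      r * (n + 1 + m - 1).choose (n + 1) := h1
  rw [hPe, hN, hcond] at h2
  rw [K4H38FP.forms_mk' (fun _ : Fin r => m) (fun i => (P i).rep) (fun i => (P i).rep_nonzero)]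
    at h2
  have h3 := K4H38FP.hv_le (K := ℂ) (σ := Fin (n + 1 + 1)) (d := d)
    (s := Multiset.replicate r m)
    ((Finset.univ : Finset (Fin r)).val.map fun i => ((P i).rep, m)) (by
      rw [Multiset.map_map]
      exact map_const_rep r m)
  obtain ⟨Φ, h0, hΦ⟩ := K4H38FP.gen_fin (n := n + 1) (fun _ : Fin r => m) d
  rw [map_const_rep] at hΦ
  have hle : r * (m + n).choose (n + 1) ≤ (d + (n + 1)).choose (n + 1) := by
    have h4 : (0 : ℤ) ≤ Module.finrank ℂ (K4H38FP.KS d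
      ((Finset.univ : Finset (Fin r)).val.map fun i => ((P i).rep, m)) :
        Submodule ℂ (MvPolynomial (Fin (n + 1 + 1)) ℂ)) := Int.natCast_nonneg _
    have h5 : ((r * (m + n).choose (n + 1) : ℕ) : ℤ) ≤ ((d + (n + 1)).choose (n + 1) : ℕ) := by
      push_cast
      linarith
    exact_mod_cast h5
  refine Pool.Agent.K7.H43.PT.ind_of_gen ?_ hle
  have hA : Pool.Agent.H938R2.ForGeneral (n + 2) r (fun p =>
      Module.finrank ℂ (K4H38FP.KS d ((Finset.univ : Finset (Fin r)).val.map fun i => (p i, m)) :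
        Submodule ℂ (MvPolynomial (Fin (n + 1 + 1)) ℂ)) =
      K4H38FP.hv ℂ (Fin (n + 1 + 1)) d (Multiset.replicate r m)) :=
    ⟨Φ, h0, fun p hp => hΦ _ hp⟩
  have hB : Pool.Agent.H938R2.ForGeneral (n + 2) r (fun p => ∀ i, p i ≠ 0) :=
    Pool.Agent.H938R2.forGeneral_ne_zero (by omega)
  refine (hA.and hB).mono fun p hp => ?_
  obtain ⟨hp1, hp2⟩ := hp
  have h6 := Pool.Agent.H938R2.finrank_forms_ge (n + 1) d (fun _ : Fin r => m) p hp2
  have h7 : Pool.Agent.H938R2.forms (n + 1 + 1) d (fun _ : Fin r => m) p =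
      K4H38FP.KS d ((Finset.univ : Finset (Fin r)).val.map fun i => (p i, m)) := by
    rw [← forms_eq' (fun _ : Fin r => m) p hp2,
      K4H38FP.forms_mk' (fun _ : Fin r => m) p hp2]
  rw [h7, hp1] at h6
  have h8 : Module.finrank ℂ (Pool.Agent.H938R2.forms (n + 2) d (fun _ : Fin r => m) p) =
      K4H38FP.hv ℂ (Fin (n + 1 + 1)) d (Multiset.replicate r m) := by
    have h9 : Pool.Agent.H938R2.forms (n + 2) d (fun _ : Fin r => m) p =
      K4H38FP.KS d ((Finset.univ : Finset (Fin r)).val.map fun i => (p i, m)) := h7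
    rw [h9, hp1]
  rw [h8]
  rw [Finset.sum_const, Finset.card_univ, Fintype.card_fin, smul_eq_mul,
    show m + (n + 1) - 1 = m + n by omega] at h6
  have h10 : (K4H38FP.hv ℂ (Fin (n + 1 + 1)) d (Multiset.replicate r m) : ℤ) ≤
      ((d + (n + 1)).choose (n + 1) : ℕ) - r * ((m + n).choose (n + 1) : ℕ) := by
    have h11 : (K4H38FP.hv ℂ (Fin (n + 1 + 1)) d (Multiset.replicate r m) : ℤ) ≤
      Module.finrank ℂ (K4H38FP.KS d
      ((Finset.univ : Finset (Fin r)).val.map fun i => ((P i).rep, m)) :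
        Submodule ℂ (MvPolynomial (Fin (n + 1 + 1)) ℂ)) := by exact_mod_cast h3
    linarith
  have h12 : K4H38FP.hv ℂ (Fin (n + 1 + 1)) d (Multiset.replicate r m) +
      r * (m + n).choose (n + 1) ≤ (d + (n + 1)).choose (n + 1) := by
    have h13 : ((K4H38FP.hv ℂ (Fin (n + 1 + 1)) d (Multiset.replicate r m) +
      r * (m + n).choose (n + 1) : ℕ) : ℤ) ≤ ((d + (n + 1)).choose (n + 1) : ℕ) := by
      push_cast
      linarith
    exact_mod_cast h13
  omega

/-- the numerical condition of the first case -/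
lemma numA {n t m d : ℕ} (hd : (t : ℝ) * gg n m ≤ d + 1) :
    t ^ (n + 1) * (m + n).choose (n + 1) ≤ (d + (n + 1)).choose (n + 1) := by
  have h1 : ((t : ℝ) * gg n m) ^ (n + 1) ≤ PP n (d + 1) :=
    (pow_le_pow_left₀ (mul_nonneg (Nat.cast_nonneg t) (gg_nonneg n m)) hd _).trans
      (PP_lower n (by positivity))
  rw [mul_pow, gg_pow, ← PP_nat, ← PP_nat'] at h1
  have h2 : ((n + 1).factorial * (t ^ (n + 1) * (n + 1 + m - 1).choose (n + 1)) : ℕ) ≤
      ((n + 1).factorial * (n + 1 + d).choose (n + 1) : ℕ) := by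
    have h3 : (((n + 1).factorial * (t ^ (n + 1) * (n + 1 + m - 1).choose (n + 1)) : ℕ) : ℝ) ≤
      (((n + 1).factorial * (n + 1 + d).choose (n + 1) : ℕ) : ℝ) := by
      refine le_trans (le_of_eq ?_) h1
      push_cast
      ring
    exact_mod_cast h3
  have h4 := Nat.le_of_mul_le_mul_left h2 (Nat.factorial_pos _)
  rwa [show n + 1 + m - 1 = m + n by omega, show n + 1 + d = d + (n + 1) by omega] at h4

/-- the numerical condition of the second case -/
lemma numB {n t m d : ℕ} {A Λ : ℝ} (hn : 1 ≤ n) (ht : 1 ≤ t) (hm : 1 ≤ m)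
    (hA : gg n m ≤ A * t) (hΛ : ((n + 1).factorial + n) * A + 2 ≤ Λ)
    (hA0 : 0 ≤ A) (hd : (t : ℝ) * gg n m + Λ - 1 ≤ d + 1) :
    ((n + 1).factorial : ℝ) * (m : ℝ) ^ (n + 1) + n * PP n m <
      PP n (d + 1) - (t : ℝ) ^ (n + 1) * PP n m := by
  have ht1 : (1 : ℝ) ≤ t := by exact_mod_cast ht
  have hm1 : (1 : ℝ) ≤ m := by exact_mod_cast hm
  have hg1 : (1 : ℝ) ≤ gg n m := hm1.trans (le_gg n m)
  have hT0 : 0 < (t : ℝ) * gg n m := by positivity
  have hf0 : (0 : ℝ) ≤ (n + 1).factorial := Nat.cast_nonneg _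
  have hn0 : (0 : ℝ) ≤ n := Nat.cast_nonneg _
  have hc0 : (0 : ℝ) ≤ ((n + 1).factorial + n) * A := by positivity
  have h1 : ((t : ℝ) * gg n m + (Λ - 1)) ^ (n + 1) ≤ PP n (d + 1) :=
    (pow_le_pow_left₀ (by linarith) (by linarith) _).trans (PP_lower n (by positivity))
  have h2 := add_pow_ge (n := n) hT0.le (show 0 ≤ Λ - 1 by linarith)
  have h3 : ((t : ℝ) * gg n m) ^ (n + 1) = (t : ℝ) ^ (n + 1) * PP n m := by
    rw [mul_pow, gg_pow]
  have h4 : (m : ℝ) ^ (n + 1) ≤ PP n m := PP_lower n (Nat.cast_nonneg m)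
  have h5 : PP n m ≤ A * ((t : ℝ) * gg n m) ^ n := by
    rw [← gg_pow, pow_succ]
    calc gg n m ^ n * gg n m ≤ gg n m ^ n * (A * t) :=
          mul_le_mul_of_nonneg_left hA (by positivity)
      _ = A * (t ^ 1 * gg n m ^ n) := by ring
      _ ≤ A * (t ^ n * gg n m ^ n) := by
          refine mul_le_mul_of_nonneg_left (mul_le_mul_of_nonneg_right
            (pow_le_pow_right₀ ht1 hn) (by positivity)) hA0
      _ = _ := by rw [mul_pow]
  have h6 : 0 < ((t : ℝ) * gg n m) ^ n := by positivity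
  have h7 : ((n + 1).factorial : ℝ) * (m : ℝ) ^ (n + 1) + n * PP n m ≤
      ((n + 1).factorial + n) * PP n m := by
    have := mul_le_mul_of_nonneg_left h4 hf0
    linarith
  have h8 : (((n + 1).factorial : ℝ) + n) * PP n m ≤
      ((n + 1).factorial + n) * (A * ((t : ℝ) * gg n m) ^ n) :=
    mul_le_mul_of_nonneg_left h5 (by positivity)
  have h9 : (((n + 1).factorial : ℝ) + n) * (A * ((t : ℝ) * gg n m) ^ n) ≤
      (Λ - 2) * ((t : ℝ) * gg n m) ^ n := by
    rw [← mul_assoc]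
    exact mul_le_mul_of_nonneg_right (by linarith) h6.le
  have h10 : (Λ - 2) * ((t : ℝ) * gg n m) ^ n < (Λ - 1) * ((t : ℝ) * gg n m) ^ n :=
    mul_lt_mul_of_pos_right (by linarith) h6
  linarith

/-- few points of small multiplicity -/
lemma gv_of_numB {n t m d : ℕ} (hn : 1 ≤ n) (hm : 1 ≤ m)
    (hkey : ((n + 1).factorial : ℝ) * (m : ℝ) ^ (n + 1) + n * PP n m <
      PP n (d + 1) - (t : ℝ) ^ (n + 1) * PP n m) :
    GV (n + 1) (t ^ (n + 1)) m d (t ^ (n + 1) * (n + 1 + m - 1).choose (n + 1)) := by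
  obtain ⟨-, h2, -⟩ := Pool.Agent.Results.MP_b56c98_ag.ConstantWindow.result (n + 1) (by omega)
  have h2' := (h2 m d hm).2.1 (t ^ (n + 1)) (Or.inr ?_)
  · exact_mod_cast h2'
  show ((m - 1 : ℕ) : ℤ) ^ (n + 1) + (((n + 1 : ℕ) : ℤ) - 2) *
      ((n + 1 + m - 1).choose (n + 1) : ℕ) <
    ((n + 1 + d).choose (n + 1) : ℕ) - (t ^ (n + 1) : ℕ) * ((n + 1 + m - 1).choose (n + 1) : ℕ)
  rw [← PP_nat, ← PP_nat'] at hkey
  have hf : (0 : ℝ) < (n + 1).factorial := by exact_mod_cast Nat.factorial_pos _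
  have h3 : (m : ℝ) ^ (n + 1) + n * ((n + 1 + m - 1).choose (n + 1) : ℕ) <
      ((n + 1 + d).choose (n + 1) : ℕ) -
        (t ^ (n + 1) : ℕ) * ((n + 1 + m - 1).choose (n + 1) : ℕ) := by
    push_cast at hkey ⊢
    by_contra hcon
    push Not at hcon
    have := mul_le_mul_of_nonneg_left hcon hf.le
    linarith
  have h4 : (m : ℤ) ^ (n + 1) + n * ((n + 1 + m - 1).choose (n + 1) : ℕ) <
      ((n + 1 + d).choose (n + 1) : ℕ) -
        (t ^ (n + 1) : ℕ) * ((n + 1 + m - 1).choose (n + 1) : ℕ) := by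
    have h5 : (((m : ℤ) ^ (n + 1) + n * ((n + 1 + m - 1).choose (n + 1) : ℕ) : ℤ) : ℝ) <
      ((((n + 1 + d).choose (n + 1) : ℕ) -
        (t ^ (n + 1) : ℕ) * ((n + 1 + m - 1).choose (n + 1) : ℕ) : ℤ) : ℝ) := by
      push_cast at h3 ⊢
      exact h3
    exact_mod_cast h5
  have h6 : ((m - 1 : ℕ) : ℤ) ^ (n + 1) ≤ (m : ℤ) ^ (n + 1) :=
    pow_le_pow_left₀ (by positivity) (by omega) _
  have h7 : (((n + 1 : ℕ) : ℤ) - 2) * ((n + 1 + m - 1).choose (n + 1) : ℕ) ≤
      n * ((n + 1 + m - 1).choose (n + 1) : ℕ) :=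
    mul_le_mul_of_nonneg_right (by push_cast; linarith) (Nat.cast_nonneg _)
  linarith

/-- clusters of perfect powers of points, independence, with a bounded error -/
theorem t_CI : S_CI := by
  intro n hn
  have hn0 : (0 : ℝ) ≤ n := Nat.cast_nonneg n
  have hf0 : (0 : ℝ) ≤ (n + 1).factorial := Nat.cast_nonneg _
  have hA0 : (0 : ℝ) ≤ (1 + n / 2) * (4 * n ^ 3) := by positivity
  have hΛ0 : (0 : ℝ) ≤ ((n + 1).factorial + n) * ((1 + n / 2) * (4 * n ^ 3)) := by positivity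
  refine ⟨((n + 1).factorial + n) * ((1 + n / 2) * (4 * n ^ 3)) + 2, by linarith,
    fun m hm t ht => ?_⟩
  have hm1 : (1 : ℝ) ≤ m := by exact_mod_cast hm
  have ht0 : (0 : ℝ) ≤ t := Nat.cast_nonneg t
  have hT0 : 0 ≤ (t : ℝ) * gg n m := mul_nonneg ht0 (gg_nonneg n m)
  generalize hΛ : (((n + 1).factorial : ℝ) + n) * ((1 + n / 2) * (4 * n ^ 3)) + 2 = Λ
  have hΛ2 : 2 ≤ Λ := by linarith
  have hM1 : 1 ≤ ⌊(t : ℝ) * gg n m + Λ⌋₊ := by
    rw [Nat.one_le_floor_iff]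
    linarith
  have hM2 : ((⌊(t : ℝ) * gg n m + Λ⌋₊ : ℕ) : ℝ) ≤ (t : ℝ) * gg n m + Λ :=
    Nat.floor_le (by linarith)
  have hM3 : (t : ℝ) * gg n m + Λ < (⌊(t : ℝ) * gg n m + Λ⌋₊ : ℕ) + 1 :=
    Nat.lt_floor_add_one _
  obtain ⟨d, hd⟩ : ∃ d, ⌊(t : ℝ) * gg n m + Λ⌋₊ = d + 1 :=
    ⟨⌊(t : ℝ) * gg n m + Λ⌋₊ - 1, by omega⟩
  rw [hd] at hM2 hM3
  push_cast at hM2 hM3
  refine ⟨d + 1, ?_, by push_cast; exact hM2⟩
  rcases le_or_gt (4 * n ^ 3 * t) m with hcase | hcase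
  · exact Pool.Agent.K7.H43.PT.ind_powersT n t m d ht
      (Or.inr (Or.inr (Or.inl (by rw [Nat.add_sub_cancel]; exact hcase))))
      (numA (by linarith))
  · refine ind_of_gv (gv_of_numB hn hm (numB (A := (1 + n / 2) * (4 * n ^ 3)) hn ht hm ?_ hΛ.le hA0
      (by linarith)))
    have h1 : (m : ℝ) ≤ 4 * n ^ 3 * t := by exact_mod_cast hcase.le
    have h2 := gg_le n m
    have h3 : (n : ℝ) / 2 ≤ n / 2 * m := le_mul_of_one_le_right (by positivity) hm1
    calc gg n m ≤ (1 + n / 2) * m := by linarith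
      _ ≤ (1 + n / 2) * (4 * n ^ 3 * t) := mul_le_mul_of_nonneg_left h1 (by positivity)
      _ = _ := by ring

end Pool.Agent.H253.BG
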